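import Mathlib

namespace Pool.Agent.Lib.MP_ef816a_al

/-- The forbidden diversity cycles: the colour multiset is `{i, i, i+1}` for some `i`. -/
def Forbidden (a b c : ZMod 5) : Prop := ∃ i : ZMod 5, ({a, b, c} : Multiset (ZMod 5)) = {i, i, i + 1}

/-- `col` colours the edges of the complete graph on `U` (values on the diagonal are ignored)
and is a representation of the algebra. -/
structure IsRep {U : Type*} (col : U → U → ZMod 5) : Prop where
  symm : ∀ u v, u ≠ v → col u v = col v u
  noForbidden : ∀ u v w, u ≠ v → v ≠ w → u ≠ w → ¬ Forbidden (col u v) (col v w) (col u w)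
  mandatory : ∀ u v, u ≠ v → ∀ s t, ¬ Forbidden (col u v) s t →
    ∃ w, w ≠ u ∧ w ≠ v ∧ col u w = s ∧ col w v = t

end Pool.Agent.Lib.MP_ef816a_al
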