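import Mathlib
import Pool.Agent.Lib.MP_ef816a_al.Defs

-- part Pool.Agent.Lib.MP_ef816a_al.Mean
section

/-! Invariant means on abelian groups, and an infinite Ramsey lemma. -/

open Set Filter Topology

namespace Pool.Agent.Lib.MP_ef816a_al

variable {G : Type*}

/-- finitely additive probability on all subsets -/
def IsMean (μ : Set G → ℝ) : Prop :=
  (∀ A, 0 ≤ μ A) ∧ μ univ = 1 ∧ ∀ A B, Disjoint A B → μ (A ∪ B) = μ A + μ B

theorem IsMean.mono {μ : Set G → ℝ} (h : IsMean μ) {A B : Set G} (hAB : A ⊆ B) : μ A ≤ μ B := by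
  have := h.2.2 A (B \ A) disjoint_sdiff_right
  rw [union_sdiff_cancel hAB] at this
  linarith [h.1 (B \ A)]

theorem IsMean.le_one {μ : Set G → ℝ} (h : IsMean μ) (A : Set G) : μ A ≤ 1 :=
  h.2.1 ▸ h.mono (subset_univ A)

theorem IsMean.empty {μ : Set G → ℝ} (h : IsMean μ) : μ ∅ = 0 := by
  have := h.2.2 ∅ ∅ (disjoint_empty _)
  rw [union_empty] at this
  linarith

theorem IsMean.union_le {μ : Set G → ℝ} (h : IsMean μ) (A B : Set G) : μ (A ∪ B) ≤ μ A + μ B := by
  have := h.2.2 A (B \ A) disjoint_sdiff_right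
  rw [union_sdiff_self] at this
  linarith [h.mono (sdiff_subset : B \ A ⊆ B)]

theorem IsMean.compl {μ : Set G → ℝ} (h : IsMean μ) (A : Set G) : μ Aᶜ = 1 - μ A := by
  have := h.2.2 A Aᶜ disjoint_compl_right
  rw [union_compl_self, h.2.1] at this
  linarith

theorem IsMean.sum_eq {μ : Set G → ℝ} (h : IsMean μ) {ι : Type*} (Y : Finset ι) (A : ι → Set G)
    (hd : ∀ i ∈ Y, ∀ j ∈ Y, i ≠ j → Disjoint (A i) (A j)) :
    μ (⋃ i ∈ Y, A i) = ∑ i ∈ Y, μ (A i) := by
  classical
  induction Y using Finset.induction_on with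
  | empty => simpa using h.empty
  | insert a Y ha ih =>
    rw [Finset.set_biUnion_insert, Finset.sum_insert ha, h.2.2,
      ih fun i hi j hj => hd i (Finset.mem_insert_of_mem hi) j (Finset.mem_insert_of_mem hj)]
    refine disjoint_iUnion₂_right.2 fun j hj => ?_
    exact hd a (Finset.mem_insert_self _ _) j (Finset.mem_insert_of_mem hj) (fun e => ha (e ▸ hj))

/-- the filter of sets of full mean -/
def IsMean.ae {μ : Set G → ℝ} (h : IsMean μ) : Filter G where
  sets := {A | μ Aᶜ = 0}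
  univ_sets := by simpa using h.empty
  sets_of_superset := fun {A B} hA hAB =>
    le_antisymm (le_trans (h.mono (compl_subset_compl.2 hAB)) (le_of_eq hA)) (h.1 _)
  inter_sets := fun {A B} hA hB => by
    have h1 : μ Aᶜ = 0 := hA
    have h2 : μ Bᶜ = 0 := hB
    change μ (A ∩ B)ᶜ = 0
    rw [compl_inter]
    exact le_antisymm (by linarith [h.union_le Aᶜ Bᶜ]) (h.1 _)

theorem IsMean.mem_ae {μ : Set G → ℝ} (h : IsMean μ) {A : Set G} : A ∈ h.ae ↔ μ Aᶜ = 0 := Iff.rfl

theorem IsMean.ae_neBot {μ : Set G → ℝ} (h : IsMean μ) : h.ae.NeBot := by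
  rw [← forall_mem_nonempty_iff_neBot]
  intro A hA
  rw [nonempty_iff_ne_empty]
  rintro rfl
  rw [h.mem_ae, compl_empty, h.2.1] at hA
  exact one_ne_zero hA

/-- translate -/
def sh [Add G] (g : G) (A : Set G) : Set G := {x | x + g ∈ A}

theorem exists_invariant_mean (G : Type*) [AddCommGroup G] :
    ∃ μ : Set G → ℝ, IsMean μ ∧ ∀ g A, μ (sh g A) = μ A := by
  classical
  let K : Finset G × ℕ → Set (Set G → ℝ) := fun p =>
    {μ | IsMean μ ∧ ∀ g ∈ p.1, ∀ A, |μ (sh g A) - μ A| ≤ 1 / ((p.2 : ℝ) + 1)}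
  have hcl : ∀ p, IsClosed (K p) := by
    intro p
    have e : K p = ((⋂ A, {μ : Set G → ℝ | 0 ≤ μ A}) ∩ ({μ | μ univ = 1} ∩
        ⋂ A, ⋂ B, ⋂ (_ : Disjoint A B), {μ | μ (A ∪ B) = μ A + μ B})) ∩
        ⋂ g ∈ p.1, ⋂ A, {μ | |μ (sh g A) - μ A| ≤ 1 / ((p.2 : ℝ) + 1)} := by
      ext μ
      simp [K, IsMean]
    rw [e]
    have ca : ∀ A : Set G, Continuous (fun μ : Set G → ℝ => μ A) := fun A => continuous_apply A
    have c1 : ∀ A : Set G, IsClosed {μ : Set G → ℝ | 0 ≤ μ A} := fun A =>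
      isClosed_le continuous_const (ca A)
    have c2 : IsClosed {μ : Set G → ℝ | μ univ = 1} := isClosed_eq (ca _) continuous_const
    have c3 : ∀ A B : Set G, IsClosed {μ : Set G → ℝ | μ (A ∪ B) = μ A + μ B} := fun A B =>
      isClosed_eq (ca _) ((ca A).add (ca B))
    have c4 : ∀ (A B : Set G) (r : ℝ), IsClosed {μ : Set G → ℝ | |μ B - μ A| ≤ r} := fun A B r =>
      isClosed_le ((ca B).sub (ca A)).abs continuous_const
    refine IsClosed.inter (IsClosed.inter (isClosed_iInter c1) (IsClosed.inter c2 ?_)) ?_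
    · exact isClosed_iInter fun A => isClosed_iInter fun B => isClosed_iInter fun _ => c3 A B
    · exact isClosed_iInter fun g => isClosed_iInter fun _ => isClosed_iInter fun A => c4 _ _ _
  have hc : ∀ p, IsCompact (K p) := fun p =>
    (isCompact_univ_pi fun _ : Set G => isCompact_Icc (a := (0 : ℝ)) (b := 1)).of_isClosed_subset
      (hcl p) fun μ hμ A _ => ⟨hμ.1.1 A, hμ.1.le_one A⟩
  have shsh : ∀ (g h : G) (A : Set G), sh g (sh h A) = sh (g + h) A := by
    intro g h A; ext x; simp [sh, add_assoc]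
  have hne : ∀ p, (K p).Nonempty := by
    rintro ⟨T, n⟩
    induction T using Finset.induction_on with
    | empty =>
      refine ⟨fun A => if (0 : G) ∈ A then 1 else 0, ⟨fun A => by positivity, by simp, ?_⟩, by simp⟩
      intro A B hd
      by_cases hA : (0 : G) ∈ A <;> by_cases hB : (0 : G) ∈ B <;> simp [hA, hB]
      exact Set.disjoint_left.1 hd hA hB
    | insert g T hg ih =>
      obtain ⟨μ, hμ, hT⟩ := ih
      have hn : (0 : ℝ) < (n : ℝ) + 1 := by positivity
      refine ⟨fun A => (∑ k ∈ Finset.range (n + 1), μ (sh (k • g) A)) / ((n : ℝ) + 1),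
        ⟨fun A => div_nonneg (Finset.sum_nonneg fun k _ => hμ.1 _) hn.le, ?_, ?_⟩, ?_⟩
      · have : ∀ k : ℕ, sh (k • g) (univ : Set G) = univ := fun k => by ext; simp [sh]
        simp only [this, hμ.2.1, Finset.sum_const, Finset.card_range, nsmul_eq_mul, mul_one]
        push_cast
        exact div_self hn.ne'
      · intro A B hd
        simp only
        rw [← add_div, ← Finset.sum_add_distrib]
        congr 1
        refine Finset.sum_congr rfl fun k _ => ?_
        exact hμ.2.2 (sh (k • g) A) (sh (k • g) B)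
          (Set.disjoint_left.2 fun x hA hB => Set.disjoint_left.1 hd hA hB)
      · intro h hh A
        simp only
        rw [← sub_div, abs_div, abs_of_pos hn, ← Finset.sum_sub_distrib]
        rcases Finset.mem_insert.1 hh with rfl | hh
        · have : ∀ k : ℕ, sh (k • h) (sh h A) = sh ((k + 1) • h) A := fun k => by
            rw [shsh, succ_nsmul]
          simp only [this]
          rw [Finset.sum_range_sub (fun k => μ (sh (k • h) A))]
          gcongr
          rw [abs_le]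
          constructor
          · linarith [hμ.1 (sh ((n + 1) • h) A), hμ.le_one (sh (0 • h) A)]
          · linarith [hμ.1 (sh (0 • h) A), hμ.le_one (sh ((n + 1) • h) A)]
        · rw [div_le_iff₀ hn]
          refine (Finset.abs_sum_le_sum_abs _ _).trans ?_
          have : ∀ k ∈ Finset.range (n + 1),
              |μ (sh (k • g) (sh h A)) - μ (sh (k • g) A)| ≤ 1 / ((n : ℝ) + 1) := by
            intro k _
            rw [shsh, add_comm, ← shsh]
            exact hT h hh _
          refine (Finset.sum_le_sum this).trans (le_of_eq ?_)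
          simp only [Finset.sum_const, Finset.card_range, nsmul_eq_mul]
          push_cast
          ring
  have hdir : Directed (· ⊇ ·) K := by
    rintro ⟨T, n⟩ ⟨T', n'⟩
    refine ⟨(T ∪ T', max n n'), fun μ hμ => ⟨hμ.1, fun g hg A => ?_⟩,
      fun μ hμ => ⟨hμ.1, fun g hg A => ?_⟩⟩
    · refine (hμ.2 g (Finset.mem_union_left _ hg) A).trans ?_
      have : (n : ℝ) ≤ ((max n n' : ℕ) : ℝ) := by exact_mod_cast le_max_left n n'
      simp only
      gcongr
    · refine (hμ.2 g (Finset.mem_union_right _ hg) A).trans ?_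
      have : (n' : ℝ) ≤ ((max n n' : ℕ) : ℝ) := by exact_mod_cast le_max_right n n'
      simp only
      gcongr
  obtain ⟨μ, hμ⟩ := IsCompact.nonempty_iInter_of_directed_nonempty_isCompact_isClosed K hdir hne hc hcl
  rw [mem_iInter] at hμ
  refine ⟨μ, (hμ (∅, 0)).1, fun g A => ?_⟩
  have : |μ (sh g A) - μ A| ≤ 0 := by
    refine ge_of_tendsto' tendsto_one_div_add_atTop_nhds_zero_nat fun n => ?_
    exact (hμ ({g}, n)).2 g (Finset.mem_singleton_self g) A
  linarith [abs_nonneg (μ (sh g A) - μ A), abs_eq_zero.1 (le_antisymm this (abs_nonneg _))]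

/-- Ramsey: an infinite set contains arbitrarily large monochromatic finite subsets. -/
theorem ramsey {C : Type*} [Finite C] (c : G → G → C) (hc : ∀ x y, c x y = c y x) {X : Set G}
    (hX : X.Infinite) : ∃ β, ∀ r : ℕ, ∃ Y : Finset G, Y.card = r ∧ (Y : Set G) ⊆ X ∧
      ∀ x ∈ Y, ∀ y ∈ Y, x ≠ y → c x y = β := by
  classical
  have : (cofinite ⊓ 𝓟 X).NeBot := cofinite_inf_principal_neBot_iff.2 hX
  obtain ⟨U, hU⟩ := Ultrafilter.exists_le (cofinite ⊓ 𝓟 X)
  have lim : ∀ f : G → C, ∃ k, ∀ᶠ y in U, f y = k := by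
    intro f
    obtain ⟨k, hk⟩ := (U.map f).eq_pure_of_finite
    refine ⟨k, ?_⟩
    have : {k} ∈ U.map f := by rw [hk]; simp
    exact this
  choose l hl using fun x => lim (c x)
  obtain ⟨β, hβ⟩ := lim l
  refine ⟨β, fun r => ?_⟩
  suffices H : ∃ Y : Finset G, Y.card = r ∧ (Y : Set G) ⊆ X ∧ (∀ x ∈ Y, l x = β) ∧
      ∀ x ∈ Y, ∀ y ∈ Y, x ≠ y → c x y = β by
    obtain ⟨Y, h1, h2, _, h4⟩ := H
    exact ⟨Y, h1, h2, h4⟩
  induction r with
  | zero => exact ⟨∅, by simp, by simp, by simp, by simp⟩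
  | succ r ih =>
    obtain ⟨Y, h1, h2, h3, h4⟩ := ih
    have e1 : ∀ᶠ y in U, y ∉ Y := hU (mem_inf_of_left Y.finite_toSet.compl_mem_cofinite)
    have e2 : ∀ᶠ y in U, y ∈ X := hU (mem_inf_of_right (mem_principal_self X))
    have e3 : ∀ᶠ y in U, ∀ x ∈ Y, c x y = l x := (eventually_all_finset Y).2 fun x _ => hl x
    obtain ⟨y, hy1, hy2, hy3, hy4⟩ := (e1.and (e2.and (e3.and hβ))).exists
    refine ⟨insert y Y, by rw [Finset.card_insert_of_notMem hy1, h1], ?_, ?_, ?_⟩
    · rw [Finset.coe_insert]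
      exact insert_subset hy2 h2
    · intro x hx
      rcases Finset.mem_insert.1 hx with rfl | hx
      · exact hy4
      · exact h3 x hx
    · intro x hx z hz hxz
      rcases Finset.mem_insert.1 hx with e | hx' <;> rcases Finset.mem_insert.1 hz with e' | hz'
      · exact absurd (e.trans e'.symm) hxz
      · rw [e, hc, hy3 z hz', h3 z hz']
      · rw [e', hy3 x hx', h3 x hx']
      · exact h4 x hx' z hz' hxz

end Pool.Agent.Lib.MP_ef816a_al
end

-- part Pool.Agent.Lib.MP_ef816a_al.Core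
section

open Set Filter

namespace Pool.Agent.Lib.MP_ef816a_al

theorem nf_same : ∀ k j : ZMod 5, k ≠ j + 1 → ¬ Forbidden k j j := by
  unfold Forbidden; decide

theorem nf_step : ∀ i : ZMod 5, ¬ Forbidden i (i + 1) (i + 1 + 1) := by
  unfold Forbidden; decide

theorem two_dense : ∀ a b : ZMod 5, ∃ i : ZMod 5, i ≠ a ∧ i ≠ b ∧ i + 1 ≠ a ∧ i + 1 ≠ b := by
  decide

variable {G : Type*} [AddCommGroup G]

/-- abstract form of a group representation -/
structure GRep (S : ZMod 5 → Set G) : Prop where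
  zero : ∀ k, (0 : G) ∉ S k
  cover : ∀ x, x ≠ 0 → ∃ k, x ∈ S k
  uniq : ∀ x k l, x ∈ S k → x ∈ S l → k = l
  neg : ∀ x k, x ∈ S k → -x ∈ S k
  forb : ∀ i x y, x ∈ S i → y ∈ S i → x - y ∉ S (i + 1)
  mand : ∀ k s t z, z ∈ S k → ¬ Forbidden k s t → ∃ x ∈ S s, ∃ y ∈ S t, x + y = z

variable {S : ZMod 5 → Set G}

theorem GRep.gen (h : GRep S) (H : AddSubgroup G) {j : ZMod 5} (hj : ∀ x ∈ S j, x ∈ H) (g : G) :
    g ∈ H := by
  have step : ∀ j : ZMod 5, (∀ x ∈ S j, x ∈ H) → ∀ k, k ≠ j + 1 → ∀ x ∈ S k, x ∈ H := by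
    intro j hj k hk z hz
    obtain ⟨x, hx, y, hy, rfl⟩ := h.mand k j j z hz (nf_same k j hk)
    exact H.add_mem (hj x hx) (hj y hy)
  by_cases h0 : g = 0
  · exact h0 ▸ H.zero_mem
  obtain ⟨k, hk⟩ := h.cover g h0
  by_cases e : k = j + 1
  · exact step (j + 2) (step j hj (j + 2) (by clear * -; revert j; decide)) k
      (by rw [e]; clear * -; revert j; decide) g hk
  · exact step j hj k e g hk

theorem GRep.infinite (h : GRep S) [Infinite G] (j : ZMod 5) : (S j).Infinite := by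
  intro hj
  have step : ∀ j : ZMod 5, (S j).Finite → ∀ k, k ≠ j + 1 → (S k).Finite := by
    intro j hj k hk
    refine (hj.image2 (· + ·) hj).subset fun z hz => ?_
    obtain ⟨x, hx, y, hy, rfl⟩ := h.mand k j j z hz (nf_same k j hk)
    exact mem_image2_of_mem hx hy
  have all : ∀ k, (S k).Finite := by
    intro k
    by_cases e : k = j + 1
    · exact step (j + 2) (step j hj (j + 2) (by clear * -; revert j; decide)) k
        (by rw [e]; clear * -; revert j; decide)
    · exact step j hj k e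
  refine infinite_univ (α := G) (((finite_singleton (0 : G)).union (finite_iUnion all)).subset ?_)
  intro x _
  by_cases h0 : x = 0
  · exact Or.inl h0
  · exact Or.inr (mem_iUnion.2 (h.cover x h0))

section mean

variable {μ : Set G → ℝ}

theorem clique_bound (h : GRep S) (hμ : IsMean μ) (inv : ∀ g A, μ (sh g A) = μ A) (i : ZMod 5)
    (Y : Finset G) (hY : ∀ x ∈ Y, ∀ y ∈ Y, x ≠ y → x - y ∈ S (i + 1)) :
    μ (⋃ y ∈ Y, sh y (S i)) = Y.card * μ (S i) := by
  rw [hμ.sum_eq Y (fun y => sh y (S i))]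
  · simp [inv]
  · intro x hx y hy hxy
    refine Set.disjoint_left.2 fun z h1 h2 => h.forb i _ _ h1 h2 ?_
    simpa using hY x hx y hy hxy

omit [AddCommGroup G] in
theorem null_of_cliques (hμ : IsMean μ) {A : Set G} (H : ∀ r : ℕ, r * μ A ≤ 1) : μ A = 0 := by
  refine le_antisymm ?_ (hμ.1 A)
  by_contra h
  obtain ⟨n, hn⟩ := exists_nat_gt (1 / μ A)
  rw [div_lt_iff₀ (not_le.1 h)] at hn
  linarith [H n]

theorem exists_null (h : GRep S) (hμ : IsMean μ) (inv : ∀ g A, μ (sh g A) = μ A) {X : Set G}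
    (hX : X.Infinite) : ∃ a, μ (S a) = 0 ∧ ∃ x ∈ X, ∃ y ∈ X, x - y ∈ S (a + 1) := by
  classical
  let c : G → G → ZMod 5 := fun x y => if e : x - y = 0 then 0 else (h.cover _ e).choose
  have hc : ∀ x y, x ≠ y → x - y ∈ S (c x y) := fun x y hxy => by
    have e : x - y ≠ 0 := sub_ne_zero.2 hxy
    simp only [c, dif_neg e]
    exact (h.cover _ e).choose_spec
  have hs : ∀ x y, c x y = c y x := by
    intro x y
    by_cases e : x = y
    · rw [e]
    · refine h.uniq (x - y) _ _ (hc x y e) ?_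
      simpa using h.neg _ _ (hc y x (Ne.symm e))
  obtain ⟨β, hβ⟩ := ramsey c hs hX
  refine ⟨β - 1, null_of_cliques hμ fun r => ?_, ?_⟩
  · obtain ⟨Y, h1, _, h3⟩ := hβ r
    rw [← h1, ← clique_bound h hμ inv (β - 1) Y fun x hx y hy hxy => by
      rw [sub_add_cancel, ← h3 x hx y hy hxy]; exact hc x y hxy]
    exact hμ.le_one _
  · obtain ⟨Y, h1, h2, h3⟩ := hβ 2
    obtain ⟨x, y, hxy, rfl⟩ := Finset.card_eq_two.1 h1
    refine ⟨x, h2 (by simp), y, h2 (by simp), ?_⟩
    rw [sub_add_cancel, ← h3 x (by simp) y (by simp) hxy]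
    exact hc x y hxy

theorem tri_mean (h : GRep S) (hμ : IsMean μ) (inv : ∀ g A, μ (sh g A) = μ A) {e : ZMod 5}
    {u v : G} (hu : u ∈ S (e + 1)) (hv : v ∈ S (e + 1)) (huv : u - v ∈ S (e + 1)) :
    μ (S e ∪ sh u (S e) ∪ sh v (S e)) = 3 * μ (S e) := by
  rw [hμ.2.2, hμ.2.2, inv, inv]
  · ring
  · refine Set.disjoint_left.2 fun z h1 h2 => h.forb e _ _ h2 h1 ?_
    simpa using hu
  · refine Set.disjoint_left.2 fun z h1 h2 => ?_
    rcases h1 with h1 | h1
    · exact h.forb e _ _ h2 h1 (by simpa using hv)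
    · exact h.forb e _ _ h1 h2 (by simpa using huv)

theorem ae_shift (hμ : IsMean μ) (inv : ∀ g A, μ (sh g A) = μ A) {p : G → Prop}
    (hp : ∀ᶠ y in hμ.ae, p y) (g : G) : ∀ᶠ y in hμ.ae, p (y + g) := by
  have : μ {y | p y}ᶜ = 0 := hp
  rw [← inv g] at this
  exact this

/-- almost-everywhere periods of a set -/
def per (hμ : IsMean μ) (inv : ∀ g A, μ (sh g A) = μ A) (A : Set G) : AddSubgroup G where
  carrier := {t | ∀ᶠ y in hμ.ae, (y + t ∈ A ↔ y ∈ A)}
  zero_mem' := by simp
  add_mem' := fun {a b} ha hb => by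
    have hb' := ae_shift hμ inv hb a
    filter_upwards [ha, hb'] with y h1 h2
    rw [← add_assoc, h2, h1]
  neg_mem' := fun {a} ha => by
    have ha' := ae_shift hμ inv ha (-a)
    filter_upwards [ha'] with y h1
    rw [← h1, neg_add_cancel_right]

/-- exactly one of three propositions -/
def One (p q r : Prop) : Prop := (p ∨ q ∨ r) ∧ ¬ (p ∧ q) ∧ ¬ (p ∧ r) ∧ ¬ (q ∧ r)

theorem One.iff3 {p q r r' : Prop} (h : One p q r) (h' : One p q r') : r ↔ r' := by
  unfold One at *; grind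

theorem One.iff23 {p q r r' : Prop} (h : One p q r) (h' : One p r r') : q ↔ r' := by
  unfold One at *; grind

theorem One.congr3 {p q r r' : Prop} (h : One p q r) (e : r' ↔ r) : One p q r' := by
  unfold One at *; grind

theorem tri_ae (h : GRep S) (hμ : IsMean μ) (inv : ∀ g A, μ (sh g A) = μ A) {e : ZMod 5}
    (he : 3 * μ (S e) = 1) {u v : G} (hu : u ∈ S (e + 1)) (hv : v ∈ S (e + 1))
    (huv : u - v ∈ S (e + 1)) :
    ∀ᶠ y in hμ.ae, One (y ∈ S e) (y + u ∈ S e) (y + v ∈ S e) := by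
  have : S e ∪ sh u (S e) ∪ sh v (S e) ∈ hμ.ae := by
    rw [hμ.mem_ae, hμ.compl, tri_mean h hμ inv hu hv huv, he, sub_self]
  filter_upwards [this] with y hy
  refine ⟨?_, fun ⟨h1, h2⟩ => h.forb e _ _ h2 h1 (by simpa using hu),
    fun ⟨h1, h2⟩ => h.forb e _ _ h2 h1 (by simpa using hv),
    fun ⟨h1, h2⟩ => h.forb e _ _ h1 h2 (by simpa using huv)⟩
  rcases hy with (hy | hy) | hy
  · exact Or.inl hy
  · exact Or.inr (Or.inl hy)
  · exact Or.inr (Or.inr hy)

theorem tile (h : GRep S) (hμ : IsMean μ) (inv : ∀ g A, μ (sh g A) = μ A) {e : ZMod 5}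
    (he : 3 * μ (S e) = 1) {s : G} (hs : s ∈ S (e + 1)) :
    s + s + s ∈ per hμ inv (S e) ∧
      ∀ᶠ y in hμ.ae, One (y ∈ S e) (y + s ∈ S e) (y + s + s ∈ S e) := by
  obtain ⟨x, hx, y, hy, hxy⟩ := h.mand (e + 1) (e + 1) (e + 1) s hs
    (nf_same _ _ (by clear * -; revert e; decide))
  have t1 := tri_ae h hμ inv he hs hx (by rw [← hxy]; simpa using hy)
  have t2 := tri_ae h hμ inv he hs hy (by rw [← hxy]; simpa using hx)
  have t3 := tri_ae h hμ inv he hx (h.neg _ _ hy) (by rw [sub_neg_eq_add, hxy]; exact hs)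
  have p1 : x - y ∈ per hμ inv (S e) := by
    have := ae_shift hμ inv (t1.and t2) (-y)
    filter_upwards [this] with z hz
    rw [neg_add_cancel_right, show z + -y + x = z + (x - y) by abel] at hz
    exact hz.1.iff3 hz.2
  have p2 : s + y ∈ per hμ inv (S e) := by
    have := ae_shift hμ inv (t1.and t3) y
    filter_upwards [this] with z hz
    rw [add_neg_cancel_right, show z + y + s = z + (s + y) by abel] at hz
    exact hz.1.iff23 hz.2
  have p3 : s + s + s ∈ per hμ inv (S e) := by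
    have := add_mem (add_mem p2 p2) p1
    convert this using 1
    rw [← hxy]; abel
  refine ⟨p3, ?_⟩
  have p4 : s + s - y ∈ per hμ inv (S e) := by
    have := sub_mem p3 p2
    convert this using 1
    abel
  have p5 := ae_shift hμ inv p4 y
  filter_upwards [t2, p5] with z h1 h2
  rw [show z + y + (s + s - y) = z + s + s by abel] at h2
  exact h1.congr3 h2

theorem three_per (h : GRep S) (hμ : IsMean μ) (inv : ∀ g A, μ (sh g A) = μ A) {e : ZMod 5}
    (he : 3 * μ (S e) = 1) (g : G) : g + g + g ∈ per hμ inv (S e) := by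
  have := h.gen ((per hμ inv (S e)).comap (nsmulAddMonoidHom 3)) (j := e + 1) (fun x hx => by
    have := (tile h hμ inv he hx).1
    simpa [AddSubgroup.mem_comap, succ_nsmul] using this) g
  simpa [AddSubgroup.mem_comap, succ_nsmul] using this

theorem not_two (p00 p10 p20 p01 p11 p21 p02 p12 p22 : Prop) (r0 : One p00 p10 p20)
    (r1 : One p01 p11 p21) (r2 : One p02 p12 p22) (c0 : One p00 p01 p02) (c1 : One p10 p11 p12)
    (c2 : One p20 p21 p22) :
    (p00 ∧ p11 → p22) ∧ (p00 ∧ p22 → p11) ∧ (p11 ∧ p22 → p00) := by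
  unfold One at *
  grind

theorem grid (p00 p10 p20 p01 p11 p21 p02 p12 p22 q00 q01 q02 : Prop)
    (r0 : One p00 p10 p20) (r1 : One p01 p11 p21) (r2 : One p02 p12 p22)
    (c0 : One q00 q01 q02)
    (n0 : (p00 ∧ p11 → p22) ∧ (p00 ∧ p22 → p11) ∧ (p11 ∧ p22 → p00))
    (n1 : (p10 ∧ p21 → p02) ∧ (p10 ∧ p02 → p21) ∧ (p21 ∧ p02 → p10))
    (n2 : (p20 ∧ p01 → p12) ∧ (p20 ∧ p12 → p01) ∧ (p01 ∧ p12 → p20))
    (m0 : q00 → ¬ p00 ∧ ¬ p11 ∧ ¬ p22) (m1 : q02 → ¬ p10 ∧ ¬ p21 ∧ ¬ p02)
    (m2 : q01 → ¬ p20 ∧ ¬ p01 ∧ ¬ p12) : p11 ↔ p00 := by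
  unfold One at *
  grind

theorem self_per (h : GRep S) (hμ : IsMean μ) (inv : ∀ g A, μ (sh g A) = μ A) {i : ZMod 5}
    (hi : 3 * μ (S i) = 1) (hi' : 3 * μ (S (i + 1)) = 1) {x : G} (hx : x ∈ S i) :
    x ∈ per hμ inv (S i) := by
  have N : ∀ᶠ y in hμ.ae, (y ∈ S i ∧ y + x ∈ S i → y + x + x ∈ S i) ∧
      (y ∈ S i ∧ y + x + x ∈ S i → y + x ∈ S i) ∧ (y + x ∈ S i ∧ y + x + x ∈ S i → y ∈ S i) := by
    obtain ⟨a, ha, b, hb, rfl⟩ := h.mand i (i + 1) (i + 1) x hx
      (nf_same _ _ (by clear * -; revert i; decide))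
    have ta := (tile h hμ inv hi ha).2
    have tb := (tile h hμ inv hi hb).2
    filter_upwards [ta, ae_shift hμ inv ta b, ae_shift hμ inv ta (b + b), tb,
      ae_shift hμ inv tb a, ae_shift hμ inv tb (a + a)] with y r0 r1 r2 c0 c1 c2
    rw [show y + b + a = y + a + b by abel, show y + a + b + a = y + a + a + b by abel] at r1
    rw [show y + (b + b) = y + b + b by abel, show y + b + b + a = y + a + b + b by abel,
      show y + a + b + b + a = y + a + a + b + b by abel] at r2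
    rw [show y + (a + a) = y + a + a by abel] at c2
    rw [show y + (a + b) = y + a + b by abel, show y + a + b + (a + b) = y + a + a + b + b by abel]
    exact not_two _ _ _ _ _ _ _ _ _ r0 r1 r2 c0 c1 c2
  obtain ⟨a, ha, b, hb, rfl⟩ := h.mand i (i + 1) (i + 1 + 1) x hx (nf_step i)
  have ta := (tile h hμ inv hi ha).2
  have tb := (tile h hμ inv hi' hb).2
  have pa := three_per h hμ inv hi a
  have pb := three_per h hμ inv hi b
  have mix : ∀ y z : G, y ∈ S (i + 1) → z ∈ S i → z ≠ y ∧ z ≠ y + (a + b) ∧ z + (a + b) ≠ y := by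
    intro y z hy hz
    refine ⟨?_, ?_, ?_⟩
    · rintro rfl
      exact absurd (h.uniq _ _ _ hy hz) (by clear * -; revert i; decide)
    · rintro rfl
      exact h.forb i _ _ hz hx (by simpa using hy)
    · rintro rfl
      exact h.forb i _ _ hz (h.neg _ _ hx) (by rw [sub_neg_eq_add]; exact hy)
  have px := three_per h hμ inv hi (a + b)
  filter_upwards [ta, ae_shift hμ inv ta b, ae_shift hμ inv ta (b + b), tb, N,
    ae_shift hμ inv N a, ae_shift hμ inv N (a + a), ae_shift hμ inv pa (b + b),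
    ae_shift hμ inv pa b, ae_shift hμ inv pa (a + b + b), ae_shift hμ inv px (-(a + b)),
    ae_shift hμ inv pa (b - a), ae_shift hμ inv pb a, ae_shift hμ inv pa (-a)]
    with y r0 r1 r2 c0 n0 n1 n2 k1 k2 k3 k4 k5 k6 k7
  rw [show y + b + a = y + a + b by abel, show y + a + b + a = y + a + a + b by abel] at r1
  rw [show y + (b + b) = y + b + b by abel, show y + b + b + a = y + a + b + b by abel,
    show y + a + b + b + a = y + a + a + b + b by abel] at r2
  rw [show y + (a + b) = y + a + b by abel,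
    show y + a + b + (a + b) = y + a + a + b + b by abel] at n0
  rw [show y + a + (a + b) = y + a + a + b by abel,
    show y + a + a + b + (a + b) = y + (b + b) + (a + a + a) by abel, k1,
    show y + (b + b) = y + b + b by abel] at n1
  rw [show y + (a + a) + (a + b) + (a + b) = y + (a + b + b) + (a + a + a) by abel, k3,
    show y + (a + a) + (a + b) = y + b + (a + a + a) by abel, k2,
    show y + (a + a) = y + a + a by abel, show y + (a + b + b) = y + a + b + b by abel] at n2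
  rw [show y + -(a + b) + (a + b + (a + b) + (a + b)) = y + a + a + b + b by abel] at k4
  rw [show y + (b - a) + (a + a + a) = y + a + a + b by abel] at k5
  rw [show y + -a + (a + a + a) = y + a + a by abel] at k7
  rw [show y + (a + b) = y + a + b by abel]
  refine grid _ _ _ _ _ _ _ _ _ _ _ _ r0 r1 r2 c0 n0 n1 n2 (fun q => ⟨fun p => ?_, fun p => ?_,
    fun p => ?_⟩) (fun q => ⟨fun p => ?_, fun p => ?_, fun p => ?_⟩)
    (fun q => ⟨fun p => ?_, fun p => ?_, fun p => ?_⟩)
  · exact (mix _ _ q p).1 rfl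
  · exact (mix _ _ q p).2.1 (by abel)
  · exact (mix _ _ q (k4.1 p)).2.2 (by abel)
  · exact (mix _ _ q (k6.2 p)).2.1 (by abel)
  · exact (mix _ _ q (k5.1 p)).2.2 (by abel)
  · exact (mix _ _ q p).1 rfl
  · exact (mix _ _ q (k7.1 p)).2.2 (by abel)
  · exact (mix _ _ q p).1 rfl
  · exact (mix _ _ q p).2.1 (by abel)

end mean

theorem sum_split (d : ZMod 5 → ℝ) (a b : ZMod 5) (hab : a ≠ b) (ha : d a = 0) (hb : d b = 0)
    (h3 : ∀ k, 3 * d k ≤ 1) (hs : 1 ≤ ∑ k, d k) (i : ZMod 5) (hia : i ≠ a) (hib : i ≠ b) :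
    3 * d i = 1 := by
  classical
  refine le_antisymm (h3 i) ?_
  have e1 := Finset.sum_erase_eq_sub (f := d) (Finset.mem_univ a)
  have m2 : b ∈ Finset.univ.erase a := by simp [hab.symm]
  have e2 := Finset.sum_erase_eq_sub (f := d) m2
  have m3 : i ∈ (Finset.univ.erase a).erase b := by simp [hia, hib]
  have e3 := Finset.sum_erase_eq_sub (f := d) m3
  have c : (((Finset.univ.erase a).erase b).erase i).card = 2 := by
    rw [Finset.card_erase_of_mem m3, Finset.card_erase_of_mem m2,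
      Finset.card_erase_of_mem (Finset.mem_univ a), Finset.card_univ, ZMod.card]
  have e4 := Finset.sum_le_card_nsmul (((Finset.univ.erase a).erase b).erase i) d (1 / 3)
    (fun k _ => by linarith [h3 k])
  rw [c, nsmul_eq_mul] at e4
  push_cast at e4
  linarith

theorem GRep.false [Infinite G] (h : GRep S) : False := by
  obtain ⟨μ, hμ, inv⟩ := exists_invariant_mean G
  obtain ⟨a, ha, -⟩ := exists_null h hμ inv (X := univ) infinite_univ
  obtain ⟨b, hb, x, hx, y, hy, hxy⟩ := exists_null h hμ inv (h.infinite a)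
  have hab : a ≠ b := fun e => h.forb a x y hx hy (e ▸ hxy)
  have h3 : ∀ k, 3 * μ (S k) ≤ 1 := by
    intro k
    obtain ⟨s, hs⟩ := (h.infinite (k + 1)).nonempty
    obtain ⟨x, hx, y, hy, hxy⟩ := h.mand (k + 1) (k + 1) (k + 1) s hs
      (nf_same _ _ (by clear * -; revert k; decide))
    rw [← tri_mean h hμ inv hs hx (by rw [← hxy]; simpa using hy)]
    exact hμ.le_one _
  have h0 : μ {0} = 0 := by
    refine null_of_cliques hμ fun r => ?_
    obtain ⟨Y, -, hY⟩ := (infinite_univ (α := G)).exists_subset_card_eq r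
    have := hμ.sum_eq Y (fun y => sh y {0}) (fun x _ y _ hxy =>
      Set.disjoint_left.2 fun z h1 h2 => hxy (add_left_cancel (a := z) (h1.trans h2.symm)))
    simp only [inv, Finset.sum_const, nsmul_eq_mul, hY] at this
    rw [← this]
    exact hμ.le_one _
  have hs : 1 ≤ ∑ k, μ (S k) := by
    rw [← hμ.sum_eq Finset.univ S (fun k _ l _ hkl =>
      Set.disjoint_left.2 fun z h1 h2 => hkl (h.uniq z k l h1 h2))]
    have h1 := hμ.union_le {0} (⋃ k ∈ (Finset.univ : Finset (ZMod 5)), S k)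
    have h2 := hμ.mono (A := univ) (B := {0} ∪ ⋃ k ∈ (Finset.univ : Finset (ZMod 5)), S k) (by
      intro z _
      by_cases e : z = 0
      · exact Or.inl e
      · obtain ⟨k, hk⟩ := h.cover z e
        exact Or.inr (mem_iUnion₂.2 ⟨k, Finset.mem_univ k, hk⟩))
    linarith [hμ.2.1]
  obtain ⟨i, i1, i2, i3, i4⟩ := two_dense a b
  have hi := sum_split (fun k => μ (S k)) a b hab ha hb h3 hs i i1 i2
  have hi' := sum_split (fun k => μ (S k)) a b hab ha hb h3 hs (i + 1) i3 i4
  obtain ⟨s, hs⟩ := (h.infinite (i + 1)).nonempty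
  have p := h.gen (per hμ inv (S i)) (j := i) (fun x hx => self_per h hμ inv hi hi' hx) s
  have := hμ.ae_neBot
  obtain ⟨z, t, p1, p2⟩ := ((tile h hμ inv hi hs).2.and (Filter.Eventually.and p
    (ae_shift hμ inv p s))).exists
  unfold One at t
  grind

end Pool.Agent.Lib.MP_ef816a_al
end
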